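import Pool.Agent.W622.ETC.Stm

/-!
# ELT-NF: families of elementary type are alternating and have components
-/

set_option autoImplicit false
set_option linter.unusedSectionVars false

namespace Pool.Agent.W505.ELT
open Pool.Agent.W622.ETC Module

universe u

section
variable {V : Type u} [AddCommGroup V] [Module (ZMod 2) V] [Finite V]

/-- the plane of `p ∧ g` -/
theorem sp_wd {p g : Dl V} (hp : p ≠ 0) (hg : g ≠ 0) (hpg : p ≠ g) :
    sp (wd p g) = Submodule.span (ZMod 2) {p, g} := by
  have key : ∀ {p g : Dl V}, p ≠ 0 → g ≠ 0 → p ≠ g → p ∈ sp (wd p g) := by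
    intro p g hp hg hpg
    have h1 : g ∉ Submodule.span (ZMod 2) {p} := by
      rw [span_one_mem]
      rintro (h | h)
      · exact hg h
      · exact hpg h.symm
    obtain ⟨a, ha, hga⟩ := exists_coann h1
    refine ⟨a, ?_⟩
    rw [wd_apply, ha p (Submodule.mem_span_singleton_self p), hga, zero_smul, zero_add, one_smul]
  refine le_antisymm (sp_wd_le p g) ?_
  rw [Submodule.span_le]
  rintro x (rfl | rfl)
  · exact key hp hg hpg
  · have := key hg hp hpg.symm
    rwa [wd_comm] at this

theorem sp_eq_bot' {ω : Frm V} (h : sp ω = ⊥) : ω = 0 := sp_eq_bot.mp h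

theorem fspan_mem {ω x : Frm V} : x ∈ (Submodule.span (ZMod 2) {ω} : Fam V) ↔ x = 0 ∨ x = ω := by
  rw [Submodule.mem_span_singleton]
  constructor
  · rintro ⟨a, rfl⟩
    rcases z01 a with rfl | rfl
    · left; exact zero_smul _ _
    · right; exact one_smul _ _
  · rintro (rfl | rfl)
    · exact ⟨0, zero_smul _ _⟩
    · exact ⟨1, one_smul _ _⟩

theorem self_mem_fspan (ω : Frm V) : ω ∈ (Submodule.span (ZMod 2) {ω} : Fam V) :=
  fspan_mem.mpr (Or.inr rfl)

theorem fspan_zero : (Submodule.span (ZMod 2) {(0 : Frm V)} : Fam V) = ⊥ := by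
  ext x
  rw [fspan_mem, Submodule.mem_bot, or_self]

/-- a family spanned by one form -/
theorem comps_span (ω : Frm V) : ∃ s, Comps (Submodule.span (ZMod 2) {ω}) s := by
  rcases eq_or_ne ω 0 with rfl | hne
  · refine ⟨∅, sSupIndep_empty, ?_, fun X hX => absurd hX (Set.notMem_empty X)⟩
    rw [fspan_zero, iSup_emptyset]
  · refine ⟨{sp ω}, sSupIndep_singleton _, ?_, ?_⟩
    · rw [iSup_singleton]
      apply le_antisymm
      · intro η hη
        refine ⟨hη, fun a => ?_⟩
        rcases fspan_mem.mp hη with rfl | rfl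
        · exact Submodule.zero_mem _
        · exact ⟨a, rfl⟩
      · exact res_le _ _
    · intro X hX
      left
      refine ⟨ω, ⟨self_mem_fspan ω, hne, ?_⟩, hX⟩
      intro η hη _
      exact fspan_mem.mp hη

theorem comp_le_supp {A : Fam V} {s : Set (DSub V)} (h : Comps A s) {X : DSub V} (hX : X ∈ s) :
    X ≤ supp A := by
  rcases h.2.2 X hX with ⟨ω, hω, rfl⟩ | ⟨p, h3, hp, hp0, hg⟩
  · exact sp_le_supp hω.1
  · intro g hgX
    -- a member `g'` of `X` outside `⟨p⟩`
    have h1 : ∃ g' ∈ X, g' ∉ Submodule.span (ZMod 2) {p} := by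
      by_contra hc
      push Not at hc
      have h4 : finrank (ZMod 2) X ≤ finrank (ZMod 2) (Submodule.span (ZMod 2) {p}) :=
        Submodule.finrank_mono hc
      have h5 : finrank (ZMod 2) (Submodule.span (ZMod 2) {p}) ≤ 1 := by
        rw [finrank_span_singleton hp0]
      omega
    obtain ⟨g', hg', hgp⟩ := h1
    rw [span_one_mem] at hgp
    push Not at hgp
    by_cases hgg : g ∈ Submodule.span (ZMod 2) {p}
    · rcases span_one_mem.mp hgg with rfl | rfl
      · exact Submodule.zero_mem _
      · apply sp_le_supp (hg g' hg')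
        rw [sp_wd hp0 hgp.1 (Ne.symm hgp.2)]
        exact Submodule.subset_span (by simp)
    · rw [span_one_mem] at hgg
      push Not at hgg
      apply sp_le_supp (hg g hgX)
      rw [sp_wd hp0 hgg.1 (Ne.symm hgg.2)]
      exact Submodule.subset_span (by simp)

theorem res_sup_of_disjoint {A B : Fam V} {X : DSub V} (h : Disjoint (supp A) (supp B))
    (hX : X ≤ supp A) : res (A ⊔ B) X = res A X := by
  apply le_antisymm
  · rintro η ⟨h1, h2⟩
    obtain ⟨α, hα, β, hβ, rfl⟩ := Submodule.mem_sup.mp h1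
    have hβ0 : β = 0 := by
      apply LinearMap.ext
      intro a
      have h3 : β a ∈ supp B := sp_le_supp hβ ⟨a, rfl⟩
      have h4 : β a ∈ supp A := by
        have : β a = (α + β) a + α a := by
          rw [LinearMap.add_apply, add_comm (α a) (β a), add_cancel']
        rw [this]
        exact Submodule.add_mem _ (hX (h2 a)) (sp_le_supp hα ⟨a, rfl⟩)
      have h5 : β a ∈ supp A ⊓ supp B := ⟨h4, h3⟩
      rw [h.eq_bot, Submodule.mem_bot] at h5
      exact h5
    subst hβ0
    rw [add_zero] at h2 ⊢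
    exact ⟨hα, h2⟩
  · exact res_mono_left le_sup_left X

theorem indep_union {s t : Set (DSub V)} (hs : sSupIndep s) (ht : sSupIndep t) {X Y : DSub V}
    (hsX : ∀ Z ∈ s, Z ≤ X) (htY : ∀ Z ∈ t, Z ≤ Y) (hXY : Disjoint X Y) : sSupIndep (s ∪ t) := by
  have key : ∀ {s t : Set (DSub V)}, sSupIndep s → ∀ {X Y : DSub V},
      (∀ Z ∈ s, Z ≤ X) → (∀ Z ∈ t, Z ≤ Y) → Disjoint X Y → ∀ Z ∈ s,
      Disjoint Z (sSup ((s ∪ t) \ {Z})) := by
    intro s t hs X Y hsX htY hXY Z hZ
    have h1 : sSup ((s ∪ t) \ {Z}) ≤ sSup (s \ {Z}) ⊔ Y := by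
      apply sSup_le
      rintro W ⟨hW | hW, hWZ⟩
      · exact le_sup_of_le_left (le_sSup ⟨hW, hWZ⟩)
      · exact le_sup_of_le_right (htY W hW)
    have h2 : Disjoint Z (sSup (s \ {Z})) := hs hZ
    have h3 : Disjoint (Z ⊔ sSup (s \ {Z})) Y := by
      refine hXY.mono_left (sup_le (hsX Z hZ) (sSup_le fun W hW => hsX W hW.1))
    exact (h2.disjoint_sup_right_of_disjoint_sup_left h3).mono_right h1
  intro Z hZ
  rcases hZ with hZ | hZ
  · exact key hs hsX htY hXY Z hZ
  · rw [Set.union_comm]
    exact key ht htY hsX hXY.symm Z hZ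

theorem comps_prod {A B : Fam V} {s t : Set (DSub V)} (hs : Comps A s) (ht : Comps B t)
    (h : Disjoint (supp A) (supp B)) : Comps (A ⊔ B) (s ∪ t) := by
  have key : ∀ {A B : Fam V} {s : Set (DSub V)}, Comps A s → Disjoint (supp A) (supp B) →
      ∀ X ∈ s, (∃ ω, Prim (A ⊔ B) ω ∧ X = sp ω) ∨ IsCone (A ⊔ B) X := by
    intro A B s hs h X hX
    rcases hs.2.2 X hX with ⟨ω, ⟨h1, h2, h3⟩, rfl⟩ | ⟨p, h3, hp, hp0, hg⟩
    · left
      refine ⟨ω, ⟨Submodule.mem_sup_left h1, h2, ?_⟩, rfl⟩
      intro η hη hle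
      have h4 : η ∈ res (A ⊔ B) (sp ω) := mem_res'.mpr ⟨hη, hle⟩
      rw [res_sup_of_disjoint h (sp_le_supp h1)] at h4
      exact h3 η h4.1 hle
    · right
      exact ⟨p, h3, hp, hp0, fun g hg' => Submodule.mem_sup_left (hg g hg')⟩
  refine ⟨indep_union hs.1 ht.1 (fun Z hZ => comp_le_supp hs hZ) (fun Z hZ => comp_le_supp ht hZ) h,
    ?_, ?_⟩
  · apply le_antisymm
    · apply sup_le
      · calc A = ⨆ X ∈ s, res A X := hs.2.1
          _ ≤ _ := iSup₂_le fun X hX =>
            (res_mono_left le_sup_left X).trans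
              (le_iSup₂_of_le X (Or.inl hX) le_rfl)
      · calc B = ⨆ X ∈ t, res B X := ht.2.1
          _ ≤ _ := iSup₂_le fun X hX =>
            (res_mono_left le_sup_right X).trans
              (le_iSup₂_of_le X (Or.inr hX) le_rfl)
    · exact iSup₂_le fun X _ => res_le _ _
  · rintro X (hX | hX)
    · exact key hs h X hX
    · have := key ht h.symm X hX
      rwa [sup_comm] at this

theorem altFam_sup {A B : Fam V} (hA : AltFam A) (hB : AltFam B) : AltFam (A ⊔ B) := by
  intro ω hω
  obtain ⟨α, hα, β, hβ, rfl⟩ := Submodule.mem_sup.mp hω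
  exact (hA α hα).add (hB β hβ)

end

theorem t_NF (hEVEN : S_EVEN) : S_NF := by
  intro V _ _ _ A hA
  induction hA with
  | zero =>
    refine ⟨?_, ∅, sSupIndep_empty, by rw [iSup_emptyset],
      fun X hX => absurd hX (Set.notMem_empty X)⟩
    intro ω hω
    rw [Submodule.mem_bot] at hω
    subst hω
    exact Alt.zero
  | loc ω hω =>
    refine ⟨?_, comps_span ω⟩
    intro η hη
    rcases fspan_mem.mp hη with rfl | rfl
    · exact Alt.zero
    · exact hω
  | prod A B _ _ h ihA ihB =>
    obtain ⟨hA, s, hs⟩ := ihA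
    obtain ⟨hB, t, ht⟩ := ihB
    exact ⟨altFam_sup hA hB, s ∪ t, comps_prod hs ht h⟩
  | cone A p Y _ hY hp ih =>
    obtain ⟨hA, -⟩ := ih
    have hmap : AltFam (Submodule.map (wd p) Y) := by
      rintro _ ⟨g, _, rfl⟩
      exact wd_alt p g
    refine ⟨altFam_sup hA hmap, ?_⟩
    by_cases h2 : 2 ≤ finrank (ZMod 2) Y
    · have hp0 : p ≠ 0 := fun h0 => hp (h0 ▸ Y.zero_mem)
      set X : DSub V := Submodule.span (ZMod 2) {p} ⊔ Y with hX
      have hpX : p ∈ X := Submodule.mem_sup_left (Submodule.mem_span_singleton_self p)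
      have hYX : Y ≤ X := le_sup_right
      refine ⟨{X}, sSupIndep_singleton _, ?_, ?_⟩
      · rw [iSup_singleton]
        refine le_antisymm ?_ (res_le _ _)
        apply sup_le
        · intro ω hω
          exact ⟨Submodule.mem_sup_left hω, fun a => hYX (hY (sp_le_supp hω ⟨a, rfl⟩))⟩
        · rintro _ ⟨g, hg, rfl⟩
          refine ⟨Submodule.mem_sup_right ⟨g, hg, rfl⟩, fun a => ?_⟩
          rw [wd_apply]
          exact X.add_mem (X.smul_mem _ (hYX hg)) (X.smul_mem _ hpX)
      · intro Z hZ
        rw [Set.mem_singleton_iff] at hZ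
        subst hZ
        right
        refine ⟨p, ?_, hpX, hp0, ?_⟩
        · have h3 : Y < X := by
            refine lt_of_le_of_ne hYX ?_
            intro h
            exact hp (h ▸ hpX)
          have := Submodule.finrank_lt_finrank_of_lt h3
          omega
        · intro g hg
          obtain ⟨c, hc, y, hy, rfl⟩ := Submodule.mem_sup.mp hg
          have h4 : wd p (c + y) = wd p y := by
            rw [map_add]
            rcases span_one_mem.mp hc with rfl | rfl
            · rw [map_zero, zero_add]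
            · rw [wd_self, zero_add]
          rw [h4]
          exact Submodule.mem_sup_right ⟨y, hy, rfl⟩
    · -- `A = ⊥`
      have hA0 : A = ⊥ := by
        rw [eq_bot_iff]
        intro ω hω
        have h3 := hEVEN V ω (hA ω hω)
        have h4 : finrank (ZMod 2) (sp ω) ≤ finrank (ZMod 2) Y :=
          Submodule.finrank_mono ((sp_le_supp hω).trans hY)
        have h5 : finrank (ZMod 2) (sp ω) = 0 := by
          obtain ⟨k, hk⟩ := h3
          omega
        rw [Submodule.mem_bot]
        exact sp_eq_bot' (Submodule.finrank_eq_zero.mp h5)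
      have hmap1 : ∃ ω : Frm V, Submodule.map (wd p) Y = Submodule.span (ZMod 2) {ω} := by
        have h3 : ∃ y : Dl V, Y = Submodule.span (ZMod 2) {y} := by
          rcases Nat.lt_or_ge (finrank (ZMod 2) Y) 1 with h4 | h4
          · refine ⟨0, ?_⟩
            rw [Submodule.span_zero_singleton]
            exact Submodule.finrank_eq_zero.mp (by omega)
          · have h5 : finrank (ZMod 2) Y = 1 := by omega
            obtain ⟨v, hv⟩ := finrank_eq_one_iff'.mp h5
            refine ⟨v.1, ?_⟩
            apply le_antisymm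
            · intro w hw
              obtain ⟨c, hc⟩ := hv.2 ⟨w, hw⟩
              rw [Submodule.mem_span_singleton]
              exact ⟨c, congrArg Subtype.val hc⟩
            · rw [Submodule.span_le, Set.singleton_subset_iff]
              exact v.2
        obtain ⟨y, rfl⟩ := h3
        refine ⟨wd p y, ?_⟩
        ext x
        rw [fspan_mem, Submodule.mem_map]
        constructor
        · rintro ⟨z, hz, rfl⟩
          rcases span_one_mem.mp hz with rfl | rfl
          · left; exact map_zero _
          · right; rfl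
        · rintro (rfl | rfl)
          · exact ⟨0, Submodule.zero_mem _, map_zero _⟩
          · exact ⟨y, Submodule.mem_span_singleton_self y, rfl⟩
      obtain ⟨ω, hω⟩ := hmap1
      rw [hA0, bot_sup_eq, hω]
      exact comps_span ω

end Pool.Agent.W505.ELT
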