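import Pool.Agent.W622.ETC.Stm
import Pool.Agent.W505.ELT.NF

/-!
# ELT-ES1: a subspace of dimension ≥ 2 containing `p ≠ 0` with `p ∧ Z ⊆ A` lies in a component
-/

set_option autoImplicit false
set_option linter.unusedSectionVars false

namespace Pool.Agent.W505.ELT
open Pool.Agent.W622.ETC Module

section
variable {V : Type} [AddCommGroup V] [Module (ZMod 2) V] [Finite V]

/-- members of a family with components live in the sum of the components -/
theorem sp_le_sSup {A : Fam V} {s : Set (DSub V)} (h : Comps A s) {ω : Frm V} (hω : ω ∈ A) :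
    sp ω ≤ sSup s := by
  have h1 : A ≤ res A (sSup s) := by
    conv_lhs => rw [h.2.1]
    exact iSup₂_le fun X hX => res_mono A (le_sSup hX)
  exact (mem_res'.mp (h1 hω)).2

/-- two nonzero alternating forms with disjoint supports: rank at least 4 -/
theorem four_le (hEVEN : S_EVEN) {α β : Frm V} (hα : Alt α) (hβ : Alt β) (hα0 : α ≠ 0)
    (hβ0 : β ≠ 0) (h : Disjoint (sp α) (sp β)) : 4 ≤ finrank (ZMod 2) (sp (α + β)) := by
  have h1 : ∀ γ : Frm V, Alt γ → γ ≠ 0 → 2 ≤ finrank (ZMod 2) (sp γ) := by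
    intro γ hγ hγ0
    obtain ⟨k, hk⟩ := hEVEN V γ hγ
    rcases Nat.eq_zero_or_pos k with rfl | hk0
    · exact absurd (sp_eq_bot' (Submodule.finrank_eq_zero.mp hk)) hγ0
    · omega
  have h2 := Submodule.finrank_sup_add_finrank_inf_eq (sp α) (sp β)
  rw [h.eq_bot, finrank_bot] at h2
  rw [sp_add hα hβ h]
  have := h1 α hα hα0
  have := h1 β hβ hβ0
  omega

/-- a member of rank `≤ 3` lies in a component -/
theorem small_le (hEVEN : S_EVEN) (hSPLIT : S_SPLIT) {A : Fam V} {s : Set (DSub V)} {ω : Frm V}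
    (hA : AltFam A) (hs : Comps A s) (hω : ω ∈ A) (hω0 : ω ≠ 0)
    (h3 : finrank (ZMod 2) (sp ω) < 4) : ∃ X ∈ s, sp ω ≤ X := by
  -- a minimal `t ⊆ s` with `sp ω ≤ sSup t`
  have hfin : {t : Set (DSub V) | t ⊆ s ∧ sp ω ≤ sSup t}.Finite := Set.toFinite _
  have hne : {t : Set (DSub V) | t ⊆ s ∧ sp ω ≤ sSup t}.Nonempty :=
    ⟨s, subset_rfl, sp_le_sSup hs hω⟩
  obtain ⟨t, ht⟩ := hfin.exists_minimal hne
  obtain ⟨⟨hts, htω⟩, hmin⟩ := ht
  have htne : t.Nonempty := by
    rw [Set.nonempty_iff_ne_empty]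
    rintro rfl
    rw [sSup_empty, le_bot_iff] at htω
    exact hω0 (sp_eq_bot' htω)
  obtain ⟨X, hX⟩ := htne
  have h4 := (hSPLIT V A s t hA hs hts).2.2
  have hω' : ω ∈ res A (sSup t) := mem_res'.mpr ⟨hω, htω⟩
  obtain ⟨h5, h6, -⟩ := hSPLIT V (res A (sSup t)) t {X} (hA.res _) h4
    (Set.singleton_subset_iff.mpr hX)
  rw [h5] at hω'
  obtain ⟨α, hα, β, hβ, hαβ⟩ := Submodule.mem_sup.mp hω'
  have hdis : Disjoint (sp α) (sp β) :=
    h6.mono (mem_res'.mp hα).2 (mem_res'.mp hβ).2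
  have hαa : Alt α := hA α hα.1.1
  have hβa : Alt β := hA β hβ.1.1
  by_cases hα0 : α = 0
  · exfalso
    subst hα0
    rw [zero_add] at hαβ
    subst hαβ
    have h7 : t \ {X} ∈ {t : Set (DSub V) | t ⊆ s ∧ sp β ≤ sSup t} :=
      ⟨Set.sdiff_subset.trans hts, (mem_res'.mp hβ).2⟩
    have h8 := hmin h7 Set.sdiff_subset hX
    exact h8.2 rfl
  · by_cases hβ0 : β = 0
    · subst hβ0
      rw [add_zero] at hαβ
      subst hαβ
      refine ⟨X, hts hX, ?_⟩
      have := (mem_res'.mp hα).2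
      rwa [sSup_singleton] at this
    · exfalso
      have := four_le hEVEN hαa hβa hα0 hβ0 hdis
      rw [hαβ] at this
      omega

end

theorem t_ES1 (hEVEN : S_EVEN) (hSPLIT : S_SPLIT) : S_ES1 := by
  intro V _ _ _ A s Z p hA hs hp hpZ h2 hZ
  -- the component of `p ∧ g`
  have key : ∀ g ∈ Z, g ≠ 0 → p ≠ g → ∃ X ∈ s, p ∈ X ∧ g ∈ X := by
    intro g hg hg0 hpg
    have h1 := sp_wd hp hg0 hpg
    have h3 : finrank (ZMod 2) (sp (wd p g)) < 4 := by
      rw [h1]
      have : finrank (ZMod 2) (Submodule.span (ZMod 2) ({p, g} : Set (Dl V))) ≤ 2 := by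
        rw [Submodule.span_insert]
        have h5 := Submodule.finrank_add_le_finrank_add_finrank (Submodule.span (ZMod 2) {p})
          (Submodule.span (ZMod 2) {g})
        rw [finrank_span_singleton hp, finrank_span_singleton hg0] at h5
        exact h5
      omega
    have h4 : wd p g ≠ 0 := by
      intro h0
      rw [h0, sp_zero] at h1
      have : p ∈ (⊥ : DSub V) := by
        rw [h1]
        exact Submodule.subset_span (by simp)
      exact hp ((Submodule.mem_bot _).mp this)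
    obtain ⟨X, hX, hle⟩ := small_le hEVEN hSPLIT hA hs (hZ g hg) h4 h3
    rw [h1] at hle
    exact ⟨X, hX, hle (Submodule.subset_span (by simp)), hle (Submodule.subset_span (by simp))⟩
  -- an element outside `⟨p⟩`
  have h1 : ∃ g ∈ Z, g ∉ Submodule.span (ZMod 2) {p} := by
    by_contra hc
    push Not at hc
    have h4 : finrank (ZMod 2) Z ≤ finrank (ZMod 2) (Submodule.span (ZMod 2) {p}) :=
      Submodule.finrank_mono hc
    rw [finrank_span_singleton hp] at h4
    omega
  obtain ⟨g, hg, hgp⟩ := h1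
  rw [span_one_mem] at hgp
  push Not at hgp
  obtain ⟨X, hX, hpX, hgX⟩ := key g hg hgp.1 (Ne.symm hgp.2)
  refine ⟨X, hX, ?_⟩
  intro f hf
  by_cases hfp : f ∈ Submodule.span (ZMod 2) {p}
  · rcases span_one_mem.mp hfp with rfl | rfl
    · exact X.zero_mem
    · exact hpX
  · rw [span_one_mem] at hfp
    push Not at hfp
    obtain ⟨Y, hY, hpY, hfY⟩ := key f hf hfp.1 (Ne.symm hfp.2)
    have : Y = X := by
      by_contra hne
      have hd : Disjoint Y X := hs.1.pairwiseDisjoint hY hX hne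
      have : p ∈ Y ⊓ X := ⟨hpY, hpX⟩
      rw [hd.eq_bot] at this
      exact hp ((Submodule.mem_bot _).mp this)
    exact this ▸ hfY

end Pool.Agent.W505.ELT
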