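import Pool.Agent.W622.ETC.Stm

/-!
# ELT-ST0: in a minimal configuration `ann b` is not a cone with apex `p`
-/

set_option autoImplicit false

namespace Pool.Agent.W505.ELT
open Pool.Agent.W622.ETC Module

theorem t_ST0 (hRIG : S_RIG) : S_ST0 := by
  intro V _ _ _ A b p hMC hb hp hpb hw
  -- a member which does not kill `b`
  have h1 : ∃ ω₀ ∈ A, ω₀ b ≠ 0 := by
    by_contra hc
    push Not at hc
    apply ann_ne_top hb
    rw [eq_top_iff, ← hMC.top]
    exact supp_le.mpr fun ω hω a => (hMC.alt ω hω).mem_ann (hc ω hω) a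
  obtain ⟨ω₀, hω₀, hne⟩ := h1
  have h2 : ∃ y, ω₀ b y = 1 := by
    by_contra hc
    push Not at hc
    exact hne (LinearMap.ext fun y => z_ne' (hc y))
  obtain ⟨y, hy⟩ := h2
  have h3 : ∃ x, p x = 1 ∧ ω₀ b x = 1 := by
    rcases z01 (p y) with h0 | h0
    · have h4 : ∃ x₀, p x₀ = 1 := by
        by_contra hc
        push Not at hc
        exact hp (LinearMap.ext fun y => z_ne' (hc y))
      obtain ⟨x₀, hx₀⟩ := h4
      rcases z01 (ω₀ b x₀) with h5 | h5
      · refine ⟨x₀ + y, ?_, ?_⟩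
        · rw [map_add, hx₀, h0, add_zero]
        · rw [map_add, h5, hy, zero_add]
      · exact ⟨x₀, hx₀, h5⟩
    · exact ⟨y, h0, hy⟩
  obtain ⟨x, hpx, hωx⟩ := h3
  have hx : x ≠ 0 := by
    rintro rfl
    rw [map_zero] at hpx
    exact zero_ne_one hpx
  apply hMC.nel
  refine hRIG V A x hMC.alt hMC.her hx ?_ (hMC.el _ (ann_ne_top hx))
  intro f hf
  rcases z01 (f b) with h0 | h0
  · refine ⟨wd p f, hw f h0, ?_⟩
    rw [wd_apply, hpx, hf, one_smul, zero_smul, add_zero]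
  · have h5 : (f + ω₀ x) b = 0 := by
      rw [LinearMap.add_apply, h0, (hMC.alt ω₀ hω₀).symm, hωx, zadd]
    have h6 : (f + ω₀ x) x = 0 := by
      rw [LinearMap.add_apply, hf, hMC.alt ω₀ hω₀, add_zero]
    refine ⟨wd p (f + ω₀ x) + ω₀, A.add_mem (hw _ h5) hω₀, ?_⟩
    rw [LinearMap.add_apply, wd_apply, hpx, h6, one_smul, zero_smul, add_zero, add_cancel']

end Pool.Agent.W505.ELT
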